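import Pool.Agent.W610.HY.Stm

/-!
# The integral commutes with everything that commutes with `a`
-/

set_option autoImplicit false

namespace Pool.Agent.W766.HY.CM

open MeasureTheory Set Metric Filter Topology
open Pool.Agent.W610.HY

theorem comm_res {𝒜 : Type} [NormedRing 𝒜] [NormedAlgebra ℂ 𝒜] (a q : 𝒜)
    (h : q * a = a * q) (z : ℂ) : q * resolvent a z = resolvent a z * q := by
  have h1 : Commute q (algebraMap ℂ 𝒜 z - a) :=
    (Algebra.commute_algebraMap_right z q).sub_right h
  by_cases hu : IsUnit (algebraMap ℂ 𝒜 z - a)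
  · obtain ⟨v, hv⟩ := hu
    have h2 : resolvent a z = ((v⁻¹ : 𝒜ˣ) : 𝒜) := by
      unfold resolvent
      rw [← hv, Ring.inverse_unit]
    rw [← hv] at h1
    rw [h2]
    exact h1.units_inv_right
  · have h2 : resolvent a z = 0 := by
      unfold resolvent
      exact Ring.inverse_non_unit _ hu
    rw [h2, mul_zero, zero_mul]

theorem main (hMEAS : MEAS) : CM := by
  intro 𝒜 _ _ _ a c r h hg q hq
  have hpi : (0 : ℝ) ≤ 2 * Real.pi := by positivity
  have hint : IntervalIntegrable (fun θ : ℝ => (h θ * circleMap 0 1 θ) •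
      resolvent a (circleMap c r θ)) volume 0 (2 * Real.pi) := by
    rw [intervalIntegrable_iff_integrableOn_Ioc_of_le hpi]
    have hm : StronglyMeasurable (fun θ : ℝ => (h θ * circleMap 0 1 θ) •
        resolvent a (circleMap c r θ)) :=
      (hg.meas.mul (continuous_circleMap 0 1).measurable).stronglyMeasurable.smul
        ((hMEAS 𝒜 a).comp_measurable (continuous_circleMap c r).measurable)
    refine Integrable.of_bound hm.aestronglyMeasurable 1 ?_
    filter_upwards [hg.bound] with θ hθ
    refine le_trans (norm_smul_le _ _) ?_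
    rw [norm_mul, norm_circleMap_zero, abs_one, mul_one]
    exact hθ
  unfold AA
  have e1 := (ContinuousLinearMap.mul ℂ 𝒜 q).intervalIntegral_comp_comm hint
  have e2 := ((ContinuousLinearMap.mul ℂ 𝒜).flip q).intervalIntegral_comp_comm hint
  simp only [ContinuousLinearMap.mul_apply', ContinuousLinearMap.flip_apply] at e1 e2
  rw [← e1, ← e2]
  congr 1
  funext θ
  rw [mul_smul_comm, smul_mul_assoc, comm_res a q hq]

end Pool.Agent.W766.HY.CM
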